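import Pool.Agent.Run7.h212.AH.UPX

/-!
# MP_501a10_an, piece UP: the upper bound for the local radius
-/

set_option autoImplicit false
set_option linter.unusedSectionVars false

noncomputable section

namespace Run7.h212.AH

open Filter Topology Matrix Pool.Agent.H188R3 Pool.Agent.TH249 Run7.h745 Run7.h745.AH
open scoped ComplexOrder

/-! ### Positive elements of C*-algebras -/

section pos
variable {B : Type} [CStarAlgebra B]

lemma pos_add (y z : B) : ∃ w : B, star y * y + star z * z = star w * w := by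
  let _ : PartialOrder B := CStarAlgebra.spectralOrder B
  have _ : StarOrderedRing B := CStarAlgebra.spectralOrderedRing B
  exact CStarAlgebra.nonneg_iff_eq_star_mul_self.mp
    (add_nonneg (star_mul_self_nonneg y) (star_mul_self_nonneg z))

lemma pos_sum {α : Type} (s : Finset α) (z : α → B) :
    ∃ w, ∑ a ∈ s, star (z a) * z a = star w * w := by
  classical
  induction s using Finset.induction_on with
  | empty => exact ⟨0, by simp⟩
  | insert a s ha ih =>
    obtain ⟨w, hw⟩ := ih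
    rw [Finset.sum_insert ha, hw]
    exact pos_add _ _

lemma pos_smul_one (r : ℝ) (hr : 0 ≤ r) : ∃ w : B, (r : ℂ) • (1 : B) = star w * w := by
  refine ⟨(Real.sqrt r : ℂ) • 1, ?_⟩
  rw [star_smul, star_one, smul_mul_smul_comm, mul_one, Complex.star_def, Complex.conj_ofReal,
    ← Complex.ofReal_mul, Real.mul_self_sqrt hr]

lemma pos_sa (a : B) (ha : IsSelfAdjoint a) (θ : ℝ) (h : ‖a‖ ≤ θ) :
    ∃ w : B, (θ : ℂ) • (1 : B) + a = star w * w := by
  let _ : PartialOrder B := CStarAlgebra.spectralOrder B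
  have _ : StarOrderedRing B := CStarAlgebra.spectralOrderedRing B
  refine CStarAlgebra.nonneg_iff_eq_star_mul_self.mp ?_
  have h1 := ha.neg_algebraMap_norm_le_self
  have h3 : ∀ r : ℝ, (r : ℂ) • (1 : B) = algebraMap ℝ B r := by
    intro r
    rw [Algebra.algebraMap_eq_smul_one]
    exact (RCLike.real_smul_eq_coe_smul (K := ℂ) r (1 : B)).symm
  obtain ⟨w, hw⟩ := pos_smul_one (B := B) (θ - ‖a‖) (sub_nonneg.mpr h)
  have h4 : (θ : ℂ) • (1 : B) + a = ((θ - ‖a‖ : ℝ) : ℂ) • (1 : B) + (a - -algebraMap ℝ B ‖a‖) := by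
    rw [← h3 ‖a‖]
    push_cast
    rw [sub_smul]
    abel
  rw [h4, hw]
  exact add_nonneg (star_mul_self_nonneg w) (sub_nonneg.mpr h1)

lemma pos_norm_le_one (c y z : B) (h1 : c = star y * y) (h2 : 1 - c = star z * z) : ‖c‖ ≤ 1 := by
  let _ : PartialOrder B := CStarAlgebra.spectralOrder B
  have _ : StarOrderedRing B := CStarAlgebra.spectralOrderedRing B
  have h3 : 0 ≤ c := by rw [h1]; exact star_mul_self_nonneg y
  have h4 : c ≤ 1 := by rw [← sub_nonneg, h2]; exact star_mul_self_nonneg z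
  exact (CStarAlgebra.norm_le_one_iff_of_nonneg c h3).mpr h4

/-- as in `Pool/Agent/Run7/h745/Ua.lean` -/
lemma normalize (S y : B) (κ : ℝ) (hκ : 0 < κ)
    (h : S - (κ : ℂ) • (1 : B) = star y * y) : ∃ R : B, IsSelfAdjoint R ∧ R * S * R = 1 := by
  let _ : PartialOrder B := CStarAlgebra.spectralOrder B
  have _ : StarOrderedRing B := CStarAlgebra.spectralOrderedRing B
  have h3 : (κ : ℂ) • (1 : B) = algebraMap ℝ B κ := by
    rw [Algebra.algebraMap_eq_smul_one]
    exact (RCLike.real_smul_eq_coe_smul (K := ℂ) κ (1 : B)).symm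
  rw [h3] at h
  have hle : algebraMap ℝ B κ ≤ S := by
    rw [← sub_nonneg, h]; exact star_mul_self_nonneg y
  have hS : IsSelfAdjoint S := by
    have h4 : S = star y * y + algebraMap ℝ B κ := by rw [← h]; abel
    rw [h4]
    refine (IsSelfAdjoint.star_mul_self y).add ?_
    rw [← h3]
    show star _ = _
    rw [star_smul, star_one]
    simp
  have hsp : ∀ x ∈ spectrum ℝ S, κ ≤ x := (algebraMap_le_iff_le_spectrum hS).mp hle
  have hcont : ContinuousOn (fun x : ℝ => (Real.sqrt x)⁻¹) (spectrum ℝ S) := by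
    refine ContinuousOn.inv₀ Real.continuous_sqrt.continuousOn fun x hx => ?_
    exact (Real.sqrt_pos.mpr (hκ.trans_le (hsp x hx))).ne'
  refine ⟨cfc (fun x : ℝ => (Real.sqrt x)⁻¹) S, cfc_predicate _ _, ?_⟩
  have e1 : cfc (fun x : ℝ => (Real.sqrt x)⁻¹) S * S * cfc (fun x : ℝ => (Real.sqrt x)⁻¹) S =
      cfc (fun x : ℝ => (Real.sqrt x)⁻¹ * x * (Real.sqrt x)⁻¹) S := by
    conv_lhs => rw [← cfc_id ℝ S]
    rw [cfc_id ℝ S]
    conv_lhs => enter [1, 2]; rw [← cfc_id ℝ S]
    rw [← cfc_mul _ _ S hcont continuousOn_id, ← cfc_mul _ _ S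
      (show ContinuousOn (fun x : ℝ => (Real.sqrt x)⁻¹ * id x) (spectrum ℝ S) from
        hcont.mul continuousOn_id) hcont]
    rfl
  rw [e1, ← cfc_one ℝ S]
  refine cfc_congr fun x hx => ?_
  have hx0 : 0 < x := hκ.trans_le (hsp x hx)
  have h5 : Real.sqrt x * Real.sqrt x = x := Real.mul_self_sqrt hx0.le
  have h6 : Real.sqrt x ≠ 0 := (Real.sqrt_pos.mpr hx0).ne'
  show (Real.sqrt x)⁻¹ * x * (Real.sqrt x)⁻¹ = 1
  field_simp
  nlinarith

lemma rows_conj {k t : ℕ} (c : Matrix (Fin k) (Fin k) B) (e : Matrix (Fin t) (Fin t) B)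
    (W : Matrix (Fin k) (Fin t) B) :
    (fromRows W (1 : Matrix (Fin t) (Fin t) B))ᴴ * fromBlocks c 0 0 e *
      fromRows W (1 : Matrix (Fin t) (Fin t) B) = Wᴴ * c * W + e := by
  rw [conjTranspose_fromRows_eq_fromCols_conjTranspose, fromCols_mul_fromBlocks,
    fromCols_mul_fromRows]
  simp

end pos

/-! ### Lipschitz elements -/

section lip
variable {s : ℕ → Bool} {n : ℕ}

lemma norm_en_le {I : Type} [Fintype I] [DecidableEq I] (x : MA I ℂ) (i k : I) :
    ‖x.en i k‖ ≤ ‖x‖ := by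
  let _ : PartialOrder ℂ := CStarAlgebra.spectralOrder ℂ
  have _ : StarOrderedRing ℂ := CStarAlgebra.spectralOrderedRing ℂ
  exact CStarMatrix.norm_entry_le_norm (A := ℂ) (M := (show CStarMatrix I I ℂ from x))

lemma norm_ev_le (a : A s n) (t : Fin (n + 1)) (y : X n t) (p p' : Fin (N s n t)) :
    ‖(a t y).en p p'‖ ≤ ‖a‖ :=
  (norm_en_le _ _ _).trans (norm_map_le' (evA t y) a)

lemma isLip_star_mul {a b : A s n} (ha : IsLip a) (hb : IsLip b) : IsLip (star a * b) := by
  obtain ⟨C, hC⟩ := ha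
  obtain ⟨C', hC'⟩ := hb
  refine ⟨(4 * k n : ℕ) * (‖a‖ * |C'| + |C| * ‖b‖), fun t y y' p p' => ?_⟩
  have h1 : ∀ y, ((star a * b) t y).en p p' = ∑ q, star ((a t y).en q p) * (b t y).en q p' :=
    fun y => rfl
  rw [h1, h1, ← Finset.sum_sub_distrib]
  refine (norm_sum_le _ _).trans ?_
  have h2 : ∀ q ∈ (Finset.univ : Finset (Fin (N s n t))),
      ‖star ((a t y).en q p) * (b t y).en q p' - star ((a t y').en q p) * (b t y').en q p'‖ ≤
      (‖a‖ * |C'| + |C| * ‖b‖) * dist y y' := by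
    intro q _
    have e : star ((a t y).en q p) * (b t y).en q p' - star ((a t y').en q p) * (b t y').en q p' =
        star ((a t y).en q p) * ((b t y).en q p' - (b t y').en q p') +
        star ((a t y).en q p - (a t y').en q p) * (b t y').en q p' := by
      rw [star_sub]; ring
    rw [e]
    refine (norm_add_le _ _).trans ?_
    rw [norm_mul, norm_mul, norm_star, norm_star, add_mul]
    have hd : 0 ≤ dist y y' := dist_nonneg
    refine add_le_add ?_ ?_
    · rw [mul_assoc]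
      refine mul_le_mul (norm_ev_le a t y q p) ((hC' t y y' q p').trans ?_) (norm_nonneg _)
        (norm_nonneg _)
      exact mul_le_mul_of_nonneg_right (le_abs_self _) hd
    · rw [mul_right_comm]
      refine mul_le_mul ((hC t y y' q p).trans ?_) (norm_ev_le b t y' q p') (norm_nonneg _)
        (mul_nonneg (abs_nonneg _) hd)
      exact mul_le_mul_of_nonneg_right (le_abs_self _) hd
  refine (Finset.sum_le_sum h2).trans ?_
  rw [Finset.sum_const, Finset.card_univ, Fintype.card_fin, nsmul_eq_mul, mul_assoc]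
  have h3 : (N s n t : ℝ) ≤ ((4 * k n : ℕ) : ℝ) := by
    have : N s n t ≤ 4 * k n := by
      unfold N
      refine Nat.mul_le_mul_right _ ?_
      unfold amp
      split_ifs <;> norm_num
    exact_mod_cast this
  refine mul_le_mul_of_nonneg_right h3 ?_
  have hd : 0 ≤ dist y y' := dist_nonneg
  positivity

lemma isLip_sum {α : Type} (S : Finset α) (a : α → A s n) (h : ∀ i ∈ S, IsLip (a i)) :
    IsLip (∑ i ∈ S, a i) := by
  classical
  induction S using Finset.induction_on with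
  | empty =>
    refine ⟨0, fun t y y' p p' => ?_⟩
    simp
  | insert i S hi ih =>
    obtain ⟨C, hC⟩ := h i (Finset.mem_insert_self _ _)
    obtain ⟨C', hC'⟩ := ih fun i' hi' => h i' (Finset.mem_insert_of_mem hi')
    refine ⟨C + C', fun t y y' p p' => ?_⟩
    rw [Finset.sum_insert hi]
    have e : ((a i + ∑ x ∈ S, a x) t y).en p p' - ((a i + ∑ x ∈ S, a x) t y').en p p' =
        ((a i t y).en p p' - (a i t y').en p p') +
        (((∑ x ∈ S, a x) t y).en p p' - ((∑ x ∈ S, a x) t y').en p p') := by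
      have e1 : ∀ y, ((a i + ∑ x ∈ S, a x) t y).en p p' = (a i t y).en p p' +
          ((∑ x ∈ S, a x) t y).en p p' := fun y => rfl
      rw [e1, e1]; ring
    rw [e, add_mul]
    exact (norm_add_le _ _).trans (add_le_add (hC t y y' p p') (hC' t y y' p p'))

lemma approx (lip : S_LIP) {L : Type} [CStarAlgebra L] {j : ∀ n, A s n →⋆ₐ[ℂ] L}
    (hL : IsLim (φ s) j) (κ : ℕ) (y : Matrix (Fin κ) (Fin κ) L) (δ : ℝ) (hδ : 0 < δ) :
    ∃ (m : ℕ) (y' : Matrix (Fin κ) (Fin κ) (A s m)), (∀ i i', IsLip (y' i i')) ∧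
      ‖toMA y - MA.map (j m) (toMA y')‖ < δ := by
  obtain ⟨m, hm⟩ := approx_MA hL (toMA y) (half_pos hδ)
  obtain ⟨x, hx⟩ := hm m le_rfl
  have hη : 0 < δ / 2 / ((κ : ℝ) * κ + 1) := by positivity
  choose b hb using fun p : Fin κ × Fin κ => lip.1 s m (x.en p.1 p.2) _ hη
  refine ⟨m, Matrix.of fun i i' => b (i, i'), fun i i' => (hb (i, i')).2, ?_⟩
  have h1 : ‖MA.map (j m) x - MA.map (j m) (toMA (Matrix.of fun i i' => b (i, i')))‖ ≤
      (κ : ℝ) * κ * (δ / 2 / ((κ : ℝ) * κ + 1)) := by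
    rw [← map_sub]
    refine (norm_map_le' _ _).trans ((norm_MA_le _).trans ?_)
    calc ∑ i, ∑ i', ‖(x - toMA (Matrix.of fun i i' => b (i, i'))).en i i'‖
        ≤ ∑ _i : Fin κ, ∑ _i' : Fin κ, δ / 2 / ((κ : ℝ) * κ + 1) :=
          Finset.sum_le_sum fun i _ => Finset.sum_le_sum fun i' _ => (hb (i, i')).1.le
      _ = _ := by
          simp only [Finset.sum_const, Finset.card_univ, Fintype.card_fin, nsmul_eq_mul]
          ring
  have h2 : (κ : ℝ) * κ * (δ / 2 / ((κ : ℝ) * κ + 1)) ≤ δ / 2 := by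
    rw [← mul_div_assoc, div_le_iff₀ (by positivity)]
    nlinarith
  calc ‖toMA y - MA.map (j m) (toMA (Matrix.of fun i i' => b (i, i')))‖
      ≤ ‖toMA y - MA.map (j m) x‖ +
        ‖MA.map (j m) x - MA.map (j m) (toMA (Matrix.of fun i i' => b (i, i')))‖ :=
        norm_sub_le_norm_sub_add_norm_sub _ _ _
    _ < δ / 2 + δ / 2 := add_lt_add_of_lt_of_le hx (h1.trans h2)
    _ = δ := by ring

end lip

/-- the transition maps as homomorphisms -/
lemma exists_trans (s : ℕ → Bool) {m n : ℕ} (h : m ≤ n) : ∃ F : A s m →⋆ₐ[ℂ] A s n,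
    ∀ x, F x = Pool.Agent.H188R3.trans (φ s) m n x := by
  have h0 : ∀ c : ℂ, Pool.Agent.H188R3.trans (φ s) m n (algebraMap ℂ (A s m) c) =
      algebraMap ℂ (A s n) c := fun c => trans_algebraMap (φ s) h c
  exact ⟨{ toFun := Pool.Agent.H188R3.trans (φ s) m n
           map_one' := by have := h0 1; rwa [map_one, map_one] at this
           map_mul' := trans_mul (φ s) h
           map_zero' := by have := h0 0; rwa [map_zero, map_zero] at this
           map_add' := trans_add (φ s) h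
           commutes' := h0
           map_star' := trans_star (φ s) h }, fun _ => rfl⟩

/-! ### The upper bound -/

theorem t_UP : S_UP := by
  classical
  intro num _ _ pt av lip upx g2 s L _ j hL τ₀ R hR hτ
  rintro κ c ⟨y, hy⟩ ⟨z, hz⟩ hc ε hε
  -- numbers
  obtain ⟨θ, hθ0, hθ1, hθ2⟩ : ∃ θ : ℝ, 0 < θ ∧ θ * (2 + R + 3 * κ) ≤ 1 / 8 ∧
      θ * (2 + R + 3 * κ) ≤ R := by
    have hD0 : (0 : ℝ) < 2 + R + 3 * κ := by positivity
    refine ⟨min (1 / 8) R / (2 + R + 3 * κ), div_pos (lt_min (by norm_num) hR) hD0, ?_, ?_⟩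
    · rw [div_mul_cancel₀ _ hD0.ne']; exact min_le_left _ _
    · rw [div_mul_cancel₀ _ hD0.ne']; exact min_le_right _ _
  have hκ0 : (0 : ℝ) ≤ κ := Nat.cast_nonneg _
  -- approximation
  have hcont : Continuous fun Z : MA (Fin κ) L => star Z * Z := continuous_star.mul continuous_id
  obtain ⟨δ, hδ, hδ'⟩ := Metric.continuousAt_iff.mp (hcont.continuousAt (x := toMA y)) θ hθ0
  obtain ⟨m, y', hy'L, hy'⟩ := approx lip hL κ y δ hδ
  have e1 : toMA c = star (toMA y) * toMA y := by rw [hy]; rfl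
  have e2 : MA.map (j m) (toMA (y'ᴴ * y')) = star (MA.map (j m) (toMA y')) *
      MA.map (j m) (toMA y') := by
    rw [← map_star, ← map_mul]; rfl
  have hcc : ‖toMA c - MA.map (j m) (toMA (y'ᴴ * y'))‖ ≤ θ := by
    have h1 := hδ' (x := MA.map (j m) (toMA y')) (by rw [dist_eq_norm, norm_sub_rev]; exact hy')
    rw [dist_eq_norm, norm_sub_rev] at h1
    rw [e1, e2]; exact h1.le
  have hsa : IsSelfAdjoint (toMA c - MA.map (j m) (toMA (y'ᴴ * y'))) := by
    rw [e1, e2]
    exact (IsSelfAdjoint.star_mul_self _).sub (IsSelfAdjoint.star_mul_self _)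
  obtain ⟨x₁, hx₁⟩ := pos_sa _ hsa θ hcc
  obtain ⟨x₂, hx₂⟩ := pos_sa _ hsa.neg θ (by rw [norm_neg]; exact hcc)
  have hnc : ‖toMA c‖ ≤ 1 := pos_norm_le_one (toMA c) (toMA y) (toMA z) e1 (by
    have : toMA (1 - c) = star (toMA z) * toMA z := by rw [hz]; rfl
    rw [← this]
    rfl)
  -- traces
  have htr : ∀ τ : TracialState L, 1 + R - κ * θ ≤ (τ.val (j m (Matrix.trace (y'ᴴ * y')))).re := by
    intro τ
    have h1 : 0 ≤ (∑ i, τ.val ((star x₂ * x₂).en i i)).re := by
      rw [Complex.re_sum]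
      refine Finset.sum_nonneg fun i _ => ?_
      rw [MA.en_mul, map_sum, Complex.re_sum]
      exact Finset.sum_nonneg fun p _ => (τ.nonneg _).1
    rw [← hx₂] at h1
    have h2 : ∑ i, τ.val (((θ : ℂ) • (1 : MA (Fin κ) L) +
        -(toMA c - MA.map (j m) (toMA (y'ᴴ * y')))).en i i) =
        κ * θ - τ.mat c + τ.val (j m (Matrix.trace (y'ᴴ * y'))) := by
      have h3 : ∀ i, ((θ : ℂ) • (1 : MA (Fin κ) L) +
        -(toMA c - MA.map (j m) (toMA (y'ᴴ * y')))).en i i = (θ : ℂ) • (1 : L) - c i i +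
          j m ((y'ᴴ * y') i i) := by
        intro i
        have h4 : ((θ : ℂ) • (1 : MA (Fin κ) L) +
        -(toMA c - MA.map (j m) (toMA (y'ᴴ * y')))).en i i = (θ : ℂ) • (1 : MA (Fin κ) L).en i i +
          -(c i i - j m ((y'ᴴ * y') i i)) := rfl
        rw [h4, MA.en_one, if_pos rfl]
        abel
      simp only [h3, map_add, map_sub, map_smul, τ.map_one, smul_eq_mul, mul_one,
        Finset.sum_add_distrib, Finset.sum_sub_distrib, Finset.sum_const, Finset.card_univ,
        Fintype.card_fin, nsmul_eq_mul, Matrix.trace, diag_apply, map_sum]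
      rfl
    rw [h2, Complex.add_re, Complex.sub_re] at h1
    have h3 : ((κ : ℂ) * (θ : ℂ)).re = κ * θ := by
      have : (κ : ℂ) * (θ : ℂ) = ((κ * θ : ℝ) : ℂ) := by push_cast; rfl
      rw [this, Complex.ofReal_re]
    rw [h3] at h1
    have h4 := hc τ
    linarith
  obtain ⟨n₀, hn₀⟩ := pt av s L j hL m (Matrix.trace (y'ᴴ * y')) (1 + R - κ * θ) htr θ hθ0
  -- bad types
  let bad : ℕ → Prop := fun t => ¬ ((mm t : ℝ) + 2) / amp s t ≤ R
  have hε' : 0 < ε / (m + 2) := by positivity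
  have hbad : ∀ t, ∃ n₁, bad t → ∀ n (hn : t ≤ n), n₁ ≤ n →
      (τ₀.val (j n (eC s (ft hn)))).re < ε / (m + 2) := by
    intro t
    rcases hτ t with h | h
    · obtain ⟨n₁, hn₁⟩ := h _ hε'
      exact ⟨n₁, fun _ => hn₁⟩
    · exact ⟨0, fun hb => absurd h hb⟩
  choose n₁ hn₁ using hbad
  obtain ⟨n, hn0, hnm, hn1⟩ : ∃ n, n₀ ≤ n ∧ m ≤ n ∧ ∀ t ≤ m, n₁ t ≤ n :=
    ⟨max (max n₀ m) ((Finset.range (m + 1)).sup n₁), (le_max_left _ _).trans (le_max_left _ _),
      (le_max_right _ _).trans (le_max_left _ _), fun t ht =>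
      (Finset.le_sup (f := n₁) (Finset.mem_range.mpr (Nat.lt_succ_of_le ht))).trans
        (le_max_right _ _)⟩
  obtain ⟨F, hFt⟩ := exists_trans s hnm
  have hF : ∀ x, j n (F x) = j m x := fun x => by
    rw [hFt]; exact comp_trans j hL.comp hnm x
  let c'' : Matrix (Fin κ) (Fin κ) (A s n) := (y'ᴴ * y').map F
  have hc''y : c'' = (y'.map F)ᴴ * (y'.map F) := by
    refine Matrix.ext fun i i' => ?_
    show F ((y'ᴴ * y') i i') = _
    rw [Matrix.mul_apply, Matrix.mul_apply, map_sum]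
    refine Finset.sum_congr rfl fun q _ => ?_
    rw [map_mul, conjTranspose_apply, conjTranspose_apply, map_star]
    rfl
  have hc''L : MA.map (j n) (toMA c'') = MA.map (j m) (toMA (y'ᴴ * y')) := by
    ext i i'
    exact hF _
  have hpos : ∃ y : Matrix (Fin κ) (Fin κ) (A s n), c'' = yᴴ * y := ⟨_, hc''y⟩
  have hbd : ∃ y : Matrix (Fin κ) (Fin κ) (A s n), ((1 + θ : ℝ) : ℂ) • 1 - c'' = yᴴ * y := by
    have hsa' : IsSelfAdjoint (-(toMA c'')) := by
      have : toMA c'' = star (toMA (y'.map F)) * toMA (y'.map F) := by rw [hc''y]; rfl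
      rw [this]
      exact (IsSelfAdjoint.star_mul_self _).neg
    have hnorm : ‖-(toMA c'')‖ ≤ 1 + θ := by
      have hinj : Function.Injective (MA.map (j n) : MA (Fin κ) (A s n) →⋆ₐ[ℂ] MA (Fin κ) L) :=
        MA_map_inj _ (hL.inj n)
      have hiso : Isometry (MA.map (j n) : MA (Fin κ) (A s n) →⋆ₐ[ℂ] MA (Fin κ) L) :=
        NonUnitalStarAlgHom.isometry ((MA.map (j n) : MA (Fin κ) (A s n) →⋆ₐ[ℂ] MA (Fin κ) L) :
          MA (Fin κ) (A s n) →⋆ₙₐ[ℂ] MA (Fin κ) L) hinj
      have h1 : ‖MA.map (j n) (toMA c'')‖ = ‖toMA c''‖ :=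
        hiso.norm_map_of_map_zero (map_zero _) _
      rw [norm_neg, ← h1, hc''L]
      calc ‖MA.map (j m) (toMA (y'ᴴ * y'))‖
          = ‖toMA c - (toMA c - MA.map (j m) (toMA (y'ᴴ * y')))‖ := by rw [sub_sub_cancel]
        _ ≤ ‖toMA c‖ + ‖toMA c - MA.map (j m) (toMA (y'ᴴ * y'))‖ := norm_sub_le _ _
        _ ≤ 1 + θ := add_le_add hnc hcc
    obtain ⟨w, hw⟩ := pos_sa _ hsa' (1 + θ) hnorm
    refine ⟨frMA w, ?_⟩
    have h2 := congrArg frMA hw
    rw [← sub_eq_add_neg] at h2
    exact h2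
  have hlip : ∀ i i', IsLip (c'' i i') := by
    intro i i'
    show IsLip (F ((y'ᴴ * y') i i'))
    rw [hFt]
    refine lip.2.1 s m n ((y'ᴴ * y') i i') hnm ?_
    rw [Matrix.mul_apply]
    refine isLip_sum _ _ fun q _ => ?_
    rw [conjTranspose_apply]
    exact isLip_star_mul (hy'L q i) (hy'L q i')
  have htrc : Matrix.trace c'' = F (Matrix.trace (y'ᴴ * y')) := by
    rw [Matrix.trace, Matrix.trace, map_sum]
    rfl
  have hlow : ∀ (t : Fin (n + 1)) (y : X n t), 1 + R - κ * θ - θ ≤ (nt (Matrix.trace c'') t y).re := by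
    intro t y
    rw [htrc, hFt]
    exact hn₀ n hn0 t y
  -- one component
  have hgood : ∀ t : Fin (n + 1), ¬ ((t : ℕ) ≤ m ∧ bad t) →
      ∃ (v : Matrix (Fin κ) (Fin 1) (A s n)) (c₀ : ℝ) (y : Matrix (Fin 1) (Fin 1) (A s n)), 0 < c₀ ∧
      (∀ i, v i 0 = v i 0 * eC s t) ∧
      vᴴ * (c'' - ((θ : ℝ) : ℂ) • 1) * v - (c₀ : ℂ) • (Matrix.of fun _ _ => eC s t) = yᴴ * y := by
    intro t ht
    have hN0 : (0 : ℝ) < N s n t := by exact_mod_cast N_pos s n t
    by_cases htm : (t : ℕ) ≤ m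
    · have hRt : ((mm t : ℝ) + 2) / amp s t ≤ R := by
        by_contra hcon
        exact ht ⟨htm, hcon⟩
      refine upx g2 s n t κ θ c'' hθ0 hlip hpos hbd (f n * (2 * (mm t + 1) + 1) / 2)
        (Or.inr (by omega)) fun y => ?_
      have hamp0 : (0 : ℝ) < amp s t := by exact_mod_cast amp_pos s t
      have hamp4 : (amp s t : ℝ) ≤ 4 := by
        have : amp s t ≤ 4 := by unfold amp; split_ifs <;> norm_num
        exact_mod_cast this
      have hk0 : (0 : ℝ) < k n := by exact_mod_cast k_pos n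
      have hfk : (f n : ℝ) ≤ k n := by
        have h1 := (num.1 n).2
        unfold d at h1
        rwa [div_le_one hk0] at h1
      have hNk : (N s n t : ℝ) = amp s t * k n := by unfold N; push_cast; rfl
      have hr : (2 : ℝ) * ((f n * (2 * (mm t + 1) + 1) / 2 : ℕ) : ℝ) ≤ k n * (2 * mm t + 3) := by
        have h1 : 2 * (f n * (2 * (mm t + 1) + 1) / 2) ≤ f n * (2 * (mm t + 1) + 1) :=
          Nat.mul_div_le _ _
        have h2 : (2 : ℝ) * ((f n * (2 * (mm t + 1) + 1) / 2 : ℕ) : ℝ) ≤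
            f n * (2 * (mm t + 1) + 1) := by exact_mod_cast h1
        refine h2.trans ?_
        have h3 : (0 : ℝ) ≤ 2 * (mm t + 1) + 1 := by positivity
        have h4 := mul_le_mul_of_nonneg_right hfk h3
        refine h4.trans (le_of_eq (by ring))
      rw [div_le_iff₀ hamp0] at hRt
      generalize ((f n * (2 * (mm t + 1) + 1) / 2 : ℕ) : ℝ) = r at hr
      have hr2 : r ≤ N s n t * (R - 1 / 8) := by
        have h1 : (k n : ℝ) * ((mm t : ℝ) + 2) ≤ k n * (R * amp s t) :=
          mul_le_mul_of_nonneg_left hRt hk0.le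
        have h2 : (amp s t : ℝ) * k n ≤ 4 * k n := mul_le_mul_of_nonneg_right hamp4 hk0.le
        rw [hNk]
        nlinarith
      have h5 := mul_le_mul_of_nonneg_left (hlow t y) hN0.le
      refine le_trans ?_ h5
      have h6 : (1 + θ) * ((N s n t : ℝ) + r) ≤ (1 + θ) * (N s n t + N s n t * (R - 1 / 8)) :=
        mul_le_mul_of_nonneg_left (by linarith) (by linarith)
      have h7 : (N s n t : ℝ) * (θ * (2 + R + 3 * κ)) ≤ N s n t * (1 / 8) :=
        mul_le_mul_of_nonneg_left hθ1 hN0.le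
      have h8 : 0 ≤ θ * N s n t := mul_nonneg hθ0.le hN0.le
      nlinarith
    · push Not at htm
      refine upx g2 s n t κ θ c'' hθ0 hlip hpos hbd 0
        (Or.inl fun i i' y₁ y₂ => by
          show F ((y'ᴴ * y') i i') t y₁ = F ((y'ᴴ * y') i i') t y₂
          rw [hFt]
          exact lip.2.2 s m n _ t hnm htm y₁ y₂) fun y => ?_
      have h5 := mul_le_mul_of_nonneg_left (hlow t y) hN0.le
      refine le_trans ?_ h5
      have h7 : (N s n t : ℝ) * (θ * (2 + R + 3 * κ)) ≤ N s n t * R :=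
        mul_le_mul_of_nonneg_left hθ2 hN0.le
      have h8 : 0 ≤ θ * N s n t * R := by positivity
      push_cast
      nlinarith
  choose! v c₀ Y hc₀ hv hY using hgood
  -- assembly at level n
  let good : Fin (n + 1) → Prop := fun t => ¬ ((t : ℕ) ≤ m ∧ bad t)
  let W : Matrix (Fin κ) (Fin 1) (A s n) := Matrix.of fun i _ => fun t =>
    if good t then v t i 0 t else 0
  let eB : A s n := fun t => if good t then 0 else 1
  obtain ⟨c₁, hc₁0, hc₁1, hc₁⟩ : ∃ c₁ : ℝ, 0 < c₁ ∧ c₁ ≤ 1 ∧ ∀ t, good t → c₁ ≤ c₀ t := by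
    let g : Fin (n + 1) → ℝ := fun t => if good t then min (c₀ t) 1 else 1
    have hne : (Finset.univ : Finset (Fin (n + 1))).Nonempty := ⟨0, Finset.mem_univ _⟩
    refine ⟨Finset.univ.inf' hne g, ?_, ?_, ?_⟩
    · rw [Finset.lt_inf'_iff]
      intro t _
      show 0 < if good t then min (c₀ t) 1 else 1
      split_ifs with h
      · exact lt_min (hc₀ t h) one_pos
      · exact one_pos
    · refine (Finset.inf'_le g (Finset.mem_univ 0)).trans ?_
      show (if good 0 then min (c₀ 0) 1 else 1) ≤ 1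
      split_ifs
      · exact min_le_right _ _
      · exact le_rfl
    · intro t ht
      refine (Finset.inf'_le g (Finset.mem_univ t)).trans ?_
      show (if good t then min (c₀ t) 1 else 1) ≤ c₀ t
      rw [if_pos ht]
      exact min_le_left _ _
  let H : A s n := (Wᴴ * (c'' - ((θ : ℝ) : ℂ) • 1) * W : Matrix (Fin 1) (Fin 1) (A s n)) 0 0 + eB - (c₁ : ℂ) • 1
  have hH : ∃ z : A s n, H = star z * z := by
    have hHt : ∀ t : Fin (n + 1), ∃ zt : C(X n t, MA (Fin (N s n t)) ℂ), H t = star zt * zt := by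
      intro t
      have hconj : ∀ (V : Matrix (Fin κ) (Fin 1) (A s n)) (Q : Matrix (Fin κ) (Fin κ) (A s n)),
          (Vᴴ * Q * V : Matrix (Fin 1) (Fin 1) (A s n)) 0 0 t = ∑ a, (∑ b, star (V b 0 t) * Q b a t) * V a 0 t := by
        intro V Q
        have h1 : (Vᴴ * Q * V : Matrix (Fin 1) (Fin 1) (A s n)) 0 0 = ∑ a, (∑ b, star (V b 0) * Q b a) * V a 0 := rfl
        rw [h1, Finset.sum_apply]
        refine Finset.sum_congr rfl fun a _ => ?_
        rw [Pi.mul_apply, Finset.sum_apply]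
        rfl
      by_cases hg : good t
      · have h1 : (Wᴴ * (c'' - ((θ : ℝ) : ℂ) • 1) * W : Matrix (Fin 1) (Fin 1) (A s n)) 0 0 t =
            ((v t)ᴴ * (c'' - ((θ : ℝ) : ℂ) • 1) * v t : Matrix (Fin 1) (Fin 1) (A s n)) 0 0 t := by
          rw [hconj, hconj]
          have hW : ∀ a, W a 0 t = v t a 0 t := fun a => if_pos hg
          simp only [hW]
        have h2 := congrArg (fun M : Matrix (Fin 1) (Fin 1) (A s n) => M 0 0 t) (hY t hg)
        have h3 : ((v t)ᴴ * (c'' - ((θ : ℝ) : ℂ) • 1) * v t : Matrix (Fin 1) (Fin 1) (A s n)) 0 0 t - (c₀ t : ℂ) • eC s t t =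
            star (Y t 0 0 t) * Y t 0 0 t := by
          have h4 : ((Y t)ᴴ * Y t : Matrix (Fin 1) (Fin 1) (A s n)) 0 0 t = star (Y t 0 0 t) * Y t 0 0 t := by
            rw [Matrix.mul_apply, Fin.sum_univ_one]
            rfl
          rw [← h4]
          exact h2
        have h5 : eC s t t = (1 : C(X n t, MA (Fin (N s n t)) ℂ)) := Pi.single_eq_same _ _
        rw [h5] at h3
        obtain ⟨w, hw⟩ := pos_smul_one (B := C(X n t, MA (Fin (N s n t)) ℂ)) (c₀ t - c₁)
          (sub_nonneg.mpr (hc₁ t hg))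
        obtain ⟨w', hw'⟩ := pos_add (Y t 0 0 t) w
        refine ⟨w', ?_⟩
        rw [← hw', ← h3, ← hw]
        have h6 : H t = (Wᴴ * (c'' - ((θ : ℝ) : ℂ) • 1) * W : Matrix (Fin 1) (Fin 1) (A s n)) 0 0 t + eB t -
          (c₁ : ℂ) • (1 : C(X n t, MA (Fin (N s n t)) ℂ)) := rfl
        have h7 : eB t = 0 := if_pos hg
        rw [h6, h7, h1]
        push_cast
        rw [sub_smul]
        abel
      · obtain ⟨w, hw⟩ := pos_smul_one (B := C(X n t, MA (Fin (N s n t)) ℂ)) (1 - c₁)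
          (sub_nonneg.mpr hc₁1)
        refine ⟨w, ?_⟩
        rw [← hw]
        have h1 : (Wᴴ * (c'' - ((θ : ℝ) : ℂ) • 1) * W : Matrix (Fin 1) (Fin 1) (A s n)) 0 0 t = 0 := by
          rw [hconj]
          have hW : ∀ a, W a 0 t = 0 := fun a => if_neg hg
          simp only [hW, mul_zero, Finset.sum_const_zero]
        have h6 : H t = (Wᴴ * (c'' - ((θ : ℝ) : ℂ) • 1) * W : Matrix (Fin 1) (Fin 1) (A s n)) 0 0 t + eB t -
          (c₁ : ℂ) • (1 : C(X n t, MA (Fin (N s n t)) ℂ)) := rfl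
        have h7 : eB t = 1 := if_neg hg
        rw [h6, h7, h1]
        push_cast
        rw [sub_smul, one_smul, zero_add]
    choose zt hzt using hHt
    exact ⟨fun t => zt t, funext fun t => hzt t⟩
  obtain ⟨zH, hzH⟩ := hH
  -- in the limit
  let wL : Matrix (Fin κ) (Fin 1) L := W.map (j n)
  let eL : L := j n eB
  let S : L := (wLᴴ * c * wL) 0 0 + eL
  have hS : ∃ y, S - (c₁ : ℂ) • (1 : L) = star y * y := by
    obtain ⟨w, hw⟩ := pos_sum (Finset.univ : Finset (Fin κ)) (fun i => (frMA x₁ * wL) i 0)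
    obtain ⟨w', hw'⟩ := pos_add w (j n zH)
    refine ⟨w', ?_⟩
    rw [← hw', ← hw, ← map_star, ← map_mul, ← hzH]
    have h1 : ∑ i, star ((frMA x₁ * wL) i 0) * (frMA x₁ * wL) i 0 =
        (wLᴴ * ((θ : ℂ) • 1 + (c - c''.map (j n))) * wL : Matrix (Fin 1) (Fin 1) L) 0 0 := by
      have h2 : (θ : ℂ) • (1 : Matrix (Fin κ) (Fin κ) L) + (c - c''.map (j n)) =
          (frMA x₁)ᴴ * frMA x₁ := by
        have h3 := congrArg frMA hx₁
        rw [← hc''L] at h3
        exact h3
      rw [h2]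
      have h3 : wLᴴ * ((frMA x₁)ᴴ * frMA x₁) * wL = (frMA x₁ * wL)ᴴ * (frMA x₁ * wL) := by
        rw [conjTranspose_mul]
        simp only [Matrix.mul_assoc]
      rw [h3, Matrix.mul_apply]
      rfl
    have h2 : j n H = (wLᴴ * (c''.map (j n) - (θ : ℂ) • 1) * wL : Matrix (Fin 1) (Fin 1) L) 0 0 + eL - (c₁ : ℂ) • 1 := by
      show j n ((Wᴴ * (c'' - ((θ : ℝ) : ℂ) • 1) * W : Matrix (Fin 1) (Fin 1) (A s n)) 0 0 + eB - (c₁ : ℂ) • 1) = _
      rw [map_sub, map_add, map_smul, map_one]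
      congr 2
      have h3 : (Wᴴ * (c'' - ((θ : ℝ) : ℂ) • 1) * W : Matrix (Fin 1) (Fin 1) (A s n)) 0 0 =
        ∑ a, (∑ b, star (W b 0) * (c'' - ((θ : ℝ) : ℂ) • 1) b a) * W a 0 := rfl
      have h4 : (wLᴴ * (c''.map (j n) - (θ : ℂ) • 1) * wL : Matrix (Fin 1) (Fin 1) L) 0 0 =
        ∑ a, (∑ b, star (j n (W b 0)) * (c''.map (j n) - (θ : ℂ) • 1) b a) * j n (W a 0) := rfl
      rw [h3, h4, map_sum]
      refine Finset.sum_congr rfl fun a _ => ?_
      rw [map_mul, map_sum]
      congr 1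
      refine Finset.sum_congr rfl fun b _ => ?_
      rw [map_mul, map_star]
      congr 1
      rw [Matrix.sub_apply, Matrix.sub_apply, map_sub, Matrix.smul_apply, Matrix.smul_apply,
        map_smul, Matrix.one_apply, Matrix.one_apply]
      split_ifs
      · rw [map_one]; rfl
      · rw [map_zero]; rfl
    rw [h1, h2]
    have h3 : wLᴴ * c * wL = wLᴴ * ((θ : ℂ) • 1 + (c - c''.map (j n))) * wL +
        wLᴴ * (c''.map (j n) - (θ : ℂ) • 1) * wL := by
      rw [← Matrix.add_mul, ← Matrix.mul_add]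
      congr 2
      abel
    show (wLᴴ * c * wL) 0 0 + eL - (c₁ : ℂ) • (1 : L) = _
    rw [h3, Matrix.add_apply]
    abel
  obtain ⟨yS, hyS⟩ := hS
  obtain ⟨Q, hQ, hQS⟩ := normalize S yS c₁ hc₁0 hyS
  have heB : IsStarProjection eB := by
    refine ⟨?_, ?_⟩
    · show eB * eB = eB
      funext t
      show (if good t then (0 : C(X n t, MA (Fin (N s n t)) ℂ)) else 1) *
        (if good t then 0 else 1) = if good t then 0 else 1
      split_ifs <;> simp
    · show star eB = eB
      funext t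
      show star (if good t then (0 : C(X n t, MA (Fin (N s n t)) ℂ)) else 1) =
        if good t then 0 else 1
      split_ifs <;> simp
  let U : Matrix (Fin κ ⊕ Fin 1) (Fin 1) L := fromRows wL (1 : Matrix (Fin 1) (Fin 1) L)
  let Qm : Matrix (Fin 1) (Fin 1) L := Matrix.of fun _ _ => Q
  let eM : Matrix (Fin 1) (Fin 1) L := Matrix.of fun _ _ => eL
  have hfin : (U * Qm)ᴴ * fromBlocks c 0 0 eM * (U * Qm) = 1 := by
    have h2 : Uᴴ * fromBlocks c 0 0 eM * U = wLᴴ * c * wL + eM := rows_conj c eM wL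
    calc (U * Qm)ᴴ * fromBlocks c 0 0 eM * (U * Qm)
        = Qmᴴ * (Uᴴ * fromBlocks c 0 0 eM * U) * Qm := by
          rw [Matrix.conjTranspose_mul]
          simp only [Matrix.mul_assoc]
      _ = 1 := by
          rw [h2]
          refine Matrix.ext fun a b => ?_
          have ha : a = 0 := Subsingleton.elim _ _
          have hb : b = 0 := Subsingleton.elim _ _
          rw [ha, hb, Matrix.mul_apply, Fin.sum_univ_one, Matrix.mul_apply, Fin.sum_univ_one]
          show star Q * ((wLᴴ * c * wL : Matrix (Fin 1) (Fin 1) L) 0 0 + eL) * Q =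
            (1 : Matrix (Fin 1) (Fin 1) L) 0 0
          rw [hQ.star_eq, Matrix.one_apply_eq]
          exact hQS
  refine ⟨1, eM, U * Qm, ?_, ?_, hfin⟩
  · refine ⟨Matrix.ext fun a b => ?_, Matrix.ext fun a b => ?_⟩
    · show star (j n eB) = j n eB
      rw [← map_star, heB.isSelfAdjoint.star_eq]
    · rw [Matrix.mul_apply, Fin.sum_univ_one]
      show j n eB * j n eB = j n eB
      rw [← map_mul, heB.isIdempotentElem.eq]
  · have h1 : τ₀.mat eM = τ₀.val (j n eB) := by
      simp [TracialState.mat, eL, eM]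
    rw [h1]
    let Bd : Finset (Fin (n + 1)) := Finset.univ.filter fun t => ¬ good t
    have h2 : eB = ∑ t ∈ Bd, eC s t := by
      funext t
      rw [Finset.sum_apply]
      show (if good t then (0 : C(X n t, MA (Fin (N s n t)) ℂ)) else 1) = _
      by_cases hg : good t
      · rw [if_pos hg]
        symm
        refine Finset.sum_eq_zero fun t' ht' => ?_
        have h9 : t ≠ t' := by
          rintro rfl
          exact (Finset.mem_filter.mp ht').2 hg
        show (Pi.single t' 1 : A s n) t = 0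
        exact Pi.single_eq_of_ne h9 _
      · rw [if_neg hg]
        have h10 : ∑ t' ∈ Bd, eC s t' t = eC s t t := by
          refine Finset.sum_eq_single t ?_ ?_
          · intro t' _ ht'
            show (Pi.single t' 1 : A s n) t = 0
            exact Pi.single_eq_of_ne (Ne.symm ht') _
          · intro h
            exact absurd (Finset.mem_filter.mpr
              (show t ∈ Finset.univ ∧ ¬ good t from ⟨Finset.mem_univ _, hg⟩)) h
        have h11 : (Pi.single t 1 : A s n) t = 1 := Pi.single_eq_same t _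
        exact (h10.trans h11).symm
    rw [h2, map_sum, map_sum, Complex.re_sum]
    have h3 : ∀ t ∈ Bd, (τ₀.val (j n (eC s t))).re ≤ ε / (m + 2) := by
      intro t ht
      have h4 := (Finset.mem_filter.mp ht).2
      have h5 : (t : ℕ) ≤ m ∧ bad t := not_not.mp h4
      exact (hn₁ t h5.2 n (Nat.le_of_lt_succ t.2) (hn1 t h5.1)).le
    have h4 : Bd.card ≤ m + 1 := by
      have h5 : Bd.card ≤ (Finset.range (m + 1)).card := by
        refine Finset.card_le_card_of_injOn (fun t : Fin (n + 1) => (t : ℕ)) ?_ ?_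
        · intro t ht
          have h6 : (t : ℕ) ≤ m ∧ bad t := not_not.mp (Finset.mem_filter.mp ht).2
          simp only [Finset.coe_range, Set.mem_Iio]
          omega
        · intro a _ b _ hab
          exact Fin.ext hab
      rwa [Finset.card_range] at h5
    calc ∑ t ∈ Bd, (τ₀.val (j n (eC s t))).re ≤ ∑ _t ∈ Bd, ε / (m + 2) := Finset.sum_le_sum h3
      _ = Bd.card * (ε / (m + 2)) := by rw [Finset.sum_const, nsmul_eq_mul]
      _ ≤ (m + 1 : ℕ) * (ε / (m + 2)) :=
          mul_le_mul_of_nonneg_right (by exact_mod_cast h4) hε'.le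
      _ < ε := by
          push_cast
          rw [← mul_div_assoc, div_lt_iff₀ (by positivity)]
          nlinarith

end Run7.h212.AH
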