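import Pool.Agent.Run7.h745.AH.Iface

/-!
# MP_501a10_an, piece UPX: general position in one component
-/

set_option autoImplicit false
set_option linter.unusedSectionVars false

noncomputable section

namespace Run7.h212.AH

open Filter Topology Matrix Pool.Agent.H188R3 Pool.Agent.TH249 Run7.h745 Run7.h745.AH
open scoped ComplexOrder

/-- pointwise positive elements are positive (as in `Pool/Agent/Run7/h745/U1a.lean`) -/
lemma pos_of_pointwise {R S : Type} [CStarAlgebra R] [CStarAlgebra S] {α : Type}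
    (φ : α → R →⋆ₐ[ℂ] S) (hφ : ∀ a b, (∀ x, φ x a = φ x b) → a = b) (H : R)
    (hH : ∀ x, ∃ b, φ x H = star b * b) : ∃ s : R, H = star s * s := by
  have hsa : IsSelfAdjoint H := by
    refine hφ _ _ fun x => ?_
    obtain ⟨b, hb⟩ := hH x
    rw [map_star, hb, star_mul, star_star]
  refine ⟨cfc (fun t : ℝ => √t) H, ?_⟩
  have h1 : star (cfc (fun t : ℝ => √t) H) = cfc (fun t : ℝ => √t) H :=
    (cfc_predicate (fun t : ℝ => √t) H : IsSelfAdjoint _).star_eq
  rw [h1, ← cfc_mul (fun t : ℝ => √t) (fun t : ℝ => √t) H (by fun_prop) (by fun_prop)]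
  refine hφ _ _ fun x => ?_
  have hc : Continuous (φ x) := AddMonoidHomClass.continuous_of_bound (φ x) 1 fun a => by
    rw [one_mul]; exact NonUnitalStarAlgHom.norm_apply_le (φ x) a
  have h2 := StarAlgHomClass.map_cfc (R := ℝ) (S := ℂ) (φ x) (fun t : ℝ => √t * √t) H (by fun_prop)
    hc hsa (hsa.map (φ x))
  rw [h2]
  obtain ⟨b, hb⟩ := hH x
  have h3 : cfc (fun t : ℝ => √t * √t) (φ x H) = cfc (fun t : ℝ => t) (φ x H) := by
    refine cfc_congr fun t ht => ?_
    rw [hb] at ht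
    exact Real.mul_self_sqrt (spectrum_star_mul_self_nonneg t ht)
  rw [h3]
  exact (cfc_id' ℝ (φ x H) (hsa.map (φ x))).symm

/-- positive semidefinite matrices factor -/
lemma psd_factor {n : Type} [Fintype n] [DecidableEq n] (M : Matrix n n ℂ) (hM : M.PosSemidef) :
    ∃ B : Matrix n n ℂ, M = Bᴴ * B := by
  open scoped MatrixOrder in
  exact ⟨CFC.sqrt M, by
    have h0 : (0 : Matrix n n ℂ) ≤ M := hM.nonneg
    have h1 : (CFC.sqrt M)ᴴ = CFC.sqrt M := (IsSelfAdjoint.of_nonneg (CFC.sqrt_nonneg M)).star_eq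
    rw [h1, CFC.sqrt_mul_sqrt_self M h0]⟩

variable {s : ℕ → Bool} {n : ℕ}

/-- evaluation at a point -/
def evA (t : Fin (n + 1)) (y : X n t) : A s n →⋆ₐ[ℂ] MA (Fin (N s n t)) ℂ where
  toFun a := a t y
  map_one' := rfl
  map_mul' _ _ := rfl
  map_zero' := rfl
  map_add' _ _ := rfl
  commutes' _ := rfl
  map_star' _ := rfl

lemma evA_apply (t : Fin (n + 1)) (y : X n t) (a : A s n) : evA t y a = a t y := rfl

/-- value of a matrix over `A s n` at a point, as a complex matrix -/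
def big (t : Fin (n + 1)) (y : X n t) {I J : Type} (P : Matrix I J (A s n)) :
    Matrix (I × Fin (N s n t)) (J × Fin (N s n t)) ℂ :=
  Matrix.of fun x z => (evA t y (P x.1 z.1)).en x.2 z.2

lemma big_mul (t : Fin (n + 1)) (y : X n t) {I J K : Type} [Fintype J] (P : Matrix I J (A s n))
    (Q : Matrix J K (A s n)) : big t y (P * Q) = big t y P * big t y Q := by
  ext ⟨i, p⟩ ⟨j, p'⟩
  simp only [big, Matrix.of_apply, Matrix.mul_apply, map_sum, map_mul, MA.en_sum, MA.en_mul,
    Fintype.sum_prod_type]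

lemma big_conj (t : Fin (n + 1)) (y : X n t) {I J : Type} (P : Matrix I J (A s n)) :
    big t y Pᴴ = (big t y P)ᴴ := by
  ext ⟨i, p⟩ ⟨j, p'⟩
  simp only [big, Matrix.of_apply, Matrix.conjTranspose_apply, map_star, MA.en_star]

lemma big_sub (t : Fin (n + 1)) (y : X n t) {I J : Type} (P Q : Matrix I J (A s n)) :
    big t y (P - Q) = big t y P - big t y Q := by
  ext ⟨i, p⟩ ⟨j, p'⟩
  simp only [big, Matrix.of_apply, Matrix.sub_apply, map_sub, MA.en_sub]

lemma big_smul (t : Fin (n + 1)) (y : X n t) {I J : Type} (a : ℂ) (P : Matrix I J (A s n)) :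
    big t y (a • P) = a • big t y P := by
  ext ⟨i, p⟩ ⟨j, p'⟩
  simp only [big, Matrix.of_apply, Matrix.smul_apply, map_smul, MA.en_smul]

lemma big_one (t : Fin (n + 1)) (y : X n t) {I : Type} [DecidableEq I] :
    big t y (1 : Matrix I I (A s n)) = 1 := by
  ext ⟨i, p⟩ ⟨j, p'⟩
  simp only [big, Matrix.of_apply, Matrix.one_apply, Prod.mk.injEq]
  by_cases h : i = j
  · subst h
    rw [if_pos rfl, map_one, MA.en_one]
    simp
  · rw [if_neg h, map_zero, MA.en_zero]
    simp [h]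

lemma continuous_en {I : Type} [Fintype I] [DecidableEq I] (i j : I) :
    Continuous fun x : MA I ℂ => x.en i j := by
  have : Continuous fun x : Matrix I I ℂ => x i j := (continuous_apply j).comp (continuous_apply i)
  exact this

lemma continuous_of {I : Type} [Fintype I] [DecidableEq I] {Y : Type} [TopologicalSpace Y]
    (g : Y → I → I → ℂ) (hg : ∀ i j, Continuous fun y => g y i j) :
    Continuous fun y => (MA.of (g y) : MA I ℂ) := by
  have : Continuous fun y => (Matrix.of (g y) : Matrix I I ℂ) :=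
    continuous_pi fun i => continuous_pi fun j => hg i j
  exact this

lemma big_continuous (t : Fin (n + 1)) {I J : Type} (P : Matrix I J (A s n)) :
    Continuous fun y : X n t => big t y P := by
  refine continuous_pi fun a => continuous_pi fun b => ?_
  exact (continuous_en a.2 b.2).comp (P a.1 b.1 t).continuous

lemma big_trace (t : Fin (n + 1)) (y : X n t) {κ : ℕ} (P : Matrix (Fin κ) (Fin κ) (A s n)) :
    (big t y P).trace.re = N s n t * (nt (Matrix.trace P) t y).re := by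
  have hN : (N s n t : ℂ) ≠ 0 := by exact_mod_cast (N_pos s n t).ne'
  have h1 : (big t y P).trace = (N s n t : ℂ) * nt (Matrix.trace P) t y := by
    rw [nt, ntr, Fintype.card_fin, mul_div_cancel₀ _ hN]
    have h2 : Matrix.trace P t y = ∑ i, evA t y (P i i) := by
      rw [← map_sum]
      rfl
    rw [h2]
    simp only [MA.en_sum]
    rw [Matrix.trace, Fintype.sum_prod_type, Finset.sum_comm]
    rfl
  rw [h1]
  have : (N s n t : ℂ) = ((N s n t : ℝ) : ℂ) := by push_cast; rfl
  rw [this, Complex.re_ofReal_mul]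

/-- the point of the cone given by a vector -/
def cpt (m : ℕ) (ζ : Fin (2 * m + 1) → ℝ) (h : ∑ i, ζ i ^ 2 ≤ 1) : coneSet m :=
  ⟨fun i j => ζ i * ζ j, ζ, h, fun _ _ => rfl⟩

lemma cpt_dist (m : ℕ) (ζ ζ' : Fin (2 * m + 1) → ℝ) (h : ∑ i, ζ i ^ 2 ≤ 1)
    (h' : ∑ i, ζ' i ^ 2 ≤ 1) (δ : ℝ) (hδ : 0 ≤ δ) (hd : ∀ i, |ζ i - ζ' i| ≤ δ) :
    dist (cpt m ζ h) (cpt m ζ' h') ≤ 2 * δ := by
  have hb : ∀ (ζ : Fin (2 * m + 1) → ℝ), ∑ i, ζ i ^ 2 ≤ 1 → ∀ i, |ζ i| ≤ 1 := by
    intro ζ h i
    have h1 := Finset.single_le_sum (f := fun a => ζ a ^ 2) (fun a _ => sq_nonneg _)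
      (Finset.mem_univ i)
    have h2 : ζ i ^ 2 ≤ 1 := le_trans h1 h
    exact abs_le_one_iff_mul_self_le_one.mpr (by nlinarith)
  rw [Subtype.dist_eq, dist_pi_le_iff (by positivity)]
  intro i
  rw [dist_pi_le_iff (by positivity)]
  intro j
  show |ζ i * ζ j - ζ' i * ζ' j| ≤ 2 * δ
  have e : ζ i * ζ j - ζ' i * ζ' j = ζ i * (ζ j - ζ' j) + (ζ i - ζ' i) * ζ' j := by ring
  rw [e]
  refine (abs_add_le _ _).trans ?_
  rw [abs_mul, abs_mul]
  have h1 := mul_le_mul (hb ζ h i) (hd j) (abs_nonneg _) zero_le_one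
  have h2 := mul_le_mul (hd i) (hb ζ' h' j) (abs_nonneg _) hδ
  linarith

theorem core (g2 : S_G2) (t : Fin (n + 1)) (κ : ℕ) (θ : ℝ)
    (c : Matrix (Fin κ) (Fin κ) (A s n)) (hθ : 0 < θ)
    (hpos : ∃ y : Matrix (Fin κ) (Fin κ) (A s n), c = yᴴ * y)
    (hbd : ∃ y : Matrix (Fin κ) (Fin κ) (A s n), ((1 + θ : ℝ) : ℂ) • 1 - c = yᴴ * y)
    (r M : ℕ) (hM : M ≤ 2 * r + 1) (K : Set (Fin M → ℝ)) (hK : IsCompact K)
    (g : (Fin M → ℝ) → X n t) (L : ℝ)
    (hL : ∀ x ∈ K, ∀ y ∈ K, ∀ a b, ‖big t (g x) c a b - big t (g y) c a b‖ ≤ L * ‖x - y‖)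
    (hg : ∀ y : X n t, ∃ w ∈ K, big t y c = big t (g w) c)
    (htr : ∀ y, (1 + θ) * ((N s n t : ℝ) + r) + 2 * θ * (κ * N s n t) ≤
      N s n t * (nt (Matrix.trace c) t y).re) :
    ∃ (v : Matrix (Fin κ) (Fin 1) (A s n)) (c₀ : ℝ) (y : Matrix (Fin 1) (Fin 1) (A s n)), 0 < c₀ ∧
      (∀ i, v i 0 = v i 0 * eC s t) ∧
      vᴴ * (c - ((θ : ℝ) : ℂ) • 1) * v - (c₀ : ℂ) • (Matrix.of fun _ _ => eC s t) = yᴴ * y := by
  classical
  let e : Fin κ × Fin (N s n t) ≃ Fin (κ * N s n t) := finProdFinEquiv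
  have hpsd : ∀ y : X n t, (big t y c).PosSemidef := by
    obtain ⟨z, hz⟩ := hpos
    intro y
    rw [hz, big_mul, big_conj]
    exact Matrix.posSemidef_conjTranspose_mul_self _
  have hpsd2 : ∀ y : X n t, (((1 + θ : ℝ) : ℂ) • 1 - big t y c).PosSemidef := by
    obtain ⟨z, hz⟩ := hbd
    intro y
    rw [← big_one (s := s) t y, ← big_smul, ← big_sub, hz, big_mul, big_conj]
    exact Matrix.posSemidef_conjTranspose_mul_self _
  let C : (Fin M → ℝ) → Matrix (Fin (κ * N s n t)) (Fin (κ * N s n t)) ℂ := fun w =>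
    (big t (g w) c).submatrix e.symm e.symm
  obtain ⟨v, c₀, hc₀, hv, hvK⟩ := g2 M (κ * N s n t) (N s n t) r θ K C L hθ hK
    (fun x hx y hy i j => hL x hx y hy _ _)
    (fun x hx => ⟨(hpsd (g x)).submatrix e.symm, by
      have h1 := (hpsd2 (g x)).submatrix e.symm
      convert h1 using 1
      ext i j
      simp [C, Matrix.one_apply]⟩)
    (fun x hx => by
      have h1 := htr (g x)
      rw [← big_trace] at h1
      have h2 : (C x).trace = (big t (g x) c).trace := by
        rw [Matrix.trace, Matrix.trace]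
        exact Equiv.sum_comp e.symm fun a => (big t (g x) c) a a
      rw [h2]
      push_cast
      exact h1) hM
  let V : X n t → Matrix (Fin (κ * N s n t)) (Fin (N s n t)) ℂ := fun y =>
    v ((big t y c).submatrix e.symm e.symm)
  have hVc : Continuous V := by
    have h1 : Continuous fun y : X n t => (big t y c).submatrix e.symm e.symm :=
      (big_continuous t c).matrix_submatrix _ _
    exact hv.comp_continuous h1 fun y => ((hpsd y).submatrix e.symm).1
  let vt : Fin κ → C(X n t, MA (Fin (N s n t)) ℂ) := fun i =>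
    ⟨fun y => MA.of fun p p' => V y (e (i, p)) p', continuous_of _ fun p p' =>
      (continuous_apply p').comp ((continuous_apply (e (i, p))).comp hVc)⟩
  let vv : Matrix (Fin κ) (Fin 1) (A s n) := Matrix.of fun i _ => Pi.single t (vt i)
  have hvv : ∀ y : X n t, big t y vv = (V y).submatrix e (fun z : Fin 1 × Fin (N s n t) => z.2) := by
    intro y
    ext ⟨i, p⟩ ⟨j, p'⟩
    simp only [big, Matrix.of_apply, evA_apply, vv, Pi.single_eq_same, Matrix.submatrix_apply]
    rfl
  let H : Matrix (Fin 1) (Fin 1) (A s n) :=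
    vvᴴ * (c - ((θ : ℝ) : ℂ) • 1) * vv - (c₀ : ℂ) • (Matrix.of fun _ _ => eC s t)
  have hHt : ∀ y : X n t, ∃ b : MA (Fin (N s n t)) ℂ, H 0 0 t y = star b * b := by
    intro y
    obtain ⟨w, hw, hyw⟩ := hg y
    have h1 := hvK w hw
    obtain ⟨B, hB⟩ := psd_factor _ h1
    refine ⟨MA.of fun p p' => B p p', ?_⟩
    have h2 : H 0 0 t y = MA.of fun p p' => big t y H (0, p) (0, p') := rfl
    have h3 : big t y H = ((V y).submatrix e (fun z : Fin 1 × Fin (N s n t) => z.2))ᴴ *
        (big t y c - (θ : ℂ) • 1) * ((V y).submatrix e (fun z : Fin 1 × Fin (N s n t) => z.2)) -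
        (c₀ : ℂ) • (1 : Matrix (Fin 1 × Fin (N s n t)) (Fin 1 × Fin (N s n t)) ℂ) := by
      show big t y (vvᴴ * (c - ((θ : ℝ) : ℂ) • 1) * vv -
        (c₀ : ℂ) • (Matrix.of fun _ _ => eC s t)) = _
      rw [big_sub, big_mul, big_mul, big_conj, big_sub, big_smul, big_one, hvv, big_smul]
      congr 2
      ext ⟨i, p⟩ ⟨j, p'⟩
      simp only [big, Matrix.of_apply, evA_apply, eC, Pi.single_eq_same, Matrix.one_apply]
      have : ((1 : C(X n t, MA (Fin (N s n t)) ℂ)) y).en p p' = if p = p' then 1 else 0 := rfl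
      rw [this]
      have hij : i = j := Subsingleton.elim _ _
      simp [hij]
    have h4 : V y = v (C w) := by
      show v ((big t y c).submatrix e.symm e.symm) = v (C w)
      rw [hyw]
    have h5 : big t y H = Matrix.submatrix ((v (C w))ᴴ *
        (C w - (θ : ℂ) • (1 : Matrix (Fin (κ * N s n t)) (Fin (κ * N s n t)) ℂ)) * v (C w)
        - (c₀ : ℂ) • (1 : Matrix (Fin (N s n t)) (Fin (N s n t)) ℂ))
        (fun z : Fin 1 × Fin (N s n t) => z.2) (fun z : Fin 1 × Fin (N s n t) => z.2) := by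
      rw [h3, h4, hyw]
      have e1 : big t (g w) c - (θ : ℂ) • 1 = (C w - (θ : ℂ) •
          (1 : Matrix (Fin (κ * N s n t)) (Fin (κ * N s n t)) ℂ)).submatrix e e := by
        ext a b
        simp [C, Matrix.one_apply]
      rw [e1, Matrix.conjTranspose_submatrix, Matrix.submatrix_mul_equiv,
        Matrix.submatrix_mul_equiv]
      ext ⟨i, p⟩ ⟨j, p'⟩
      have hij : i = j := Subsingleton.elim _ _
      simp [Matrix.one_apply, hij]
    rw [h2, h5, hB]
    ext p p'
    rw [MA.en_of, MA.en_mul]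
    simp only [Matrix.submatrix_apply, Matrix.mul_apply, Matrix.conjTranspose_apply, MA.en_star,
      MA.en_of]
  obtain ⟨b, hb⟩ := pos_of_pointwise (R := C(X n t, MA (Fin (N s n t)) ℂ))
    (S := MA (Fin (N s n t)) ℂ) (α := X n t)
    (fun y => (⟨⟨⟨⟨⟨fun a => a y, rfl⟩, fun _ _ => rfl⟩, rfl, fun _ _ => rfl⟩, fun _ => rfl⟩,
      fun _ => rfl⟩ : C(X n t, MA (Fin (N s n t)) ℂ) →⋆ₐ[ℂ] MA (Fin (N s n t)) ℂ))
    (fun a b h => ContinuousMap.ext h) (H 0 0 t) hHt
  refine ⟨vv, c₀, Matrix.of fun _ _ => Pi.single t b, hc₀, ?_, ?_⟩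
  · intro i
    have h1 : (Pi.single t (vt i) : A s n) = Pi.single t (vt i) * Pi.single t 1 := by
      rw [← Pi.single_mul, mul_one]
    exact h1
  · show H = _
    refine Matrix.ext fun i j => ?_
    have hi : i = 0 := Subsingleton.elim _ _
    have hj : j = 0 := Subsingleton.elim _ _
    rw [hi, hj, Matrix.mul_apply, Fin.sum_univ_one]
    simp only [Matrix.conjTranspose_apply, Matrix.of_apply]
    have h0 : star (Pi.single t b : A s n) * Pi.single t b = Pi.single t (star b * b) := by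
      rw [← Pi.single_star, ← Pi.single_mul]
    rw [h0, ← hb]
    funext t'
    by_cases ht : t' = t
    · subst ht
      rw [Pi.single_eq_same]
    · rw [Pi.single_eq_of_ne ht]
      have hvv0 : ∀ k : Fin κ, vv k 0 t' = 0 := fun k => Pi.single_eq_of_ne ht _
      have h6 : H 0 0 = ∑ a, (∑ b, star (vv b 0) * (c - ((θ : ℝ) : ℂ) • 1) b a) * vv a 0 -
        (c₀ : ℂ) • eC s t := rfl
      rw [h6]
      have h7 : ∀ a, ((∑ b, star (vv b 0) * (c - ((θ : ℝ) : ℂ) • 1) b a) * vv a 0) t' = 0 := by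
        intro a
        rw [Pi.mul_apply, hvv0, mul_zero]
      rw [Pi.sub_apply, Finset.sum_apply, Finset.sum_eq_zero fun a _ => h7 a, Pi.smul_apply, eC,
        Pi.single_eq_of_ne ht, smul_zero, sub_zero]

theorem t_UPX : S_UPX := by
  intro g2 s n t κ θ c hθ hlip hpos hbd r hr htr
  classical
  rcases hr with hconst | hr
  · refine core g2 t κ θ c hθ hpos hbd r 0 (Nat.zero_le _) Set.univ isCompact_univ
      (fun _ => x0 n t) 0 (fun x _ y _ a b => by simp) (fun y => ⟨0, Set.mem_univ _, ?_⟩) htr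
    ext a b
    exact congrArg (fun z => z.en a.2 b.2) (hconst a.1 b.1 y (x0 n t))
  · -- parameters
    let J : Type := Fin (f n) × Fin (2 * (mm t + 1) + 1)
    let M := f n * (2 * (mm t + 1) + 1)
    let e : Fin M ≃ J := finProdFinEquiv.symm
    let K : Set (Fin M → ℝ) := {w | ∀ j : Fin (f n), ∑ a, (w (e.symm (j, a))) ^ 2 ≤ 1}
    have hKc : IsCompact K := by
      have h1 : IsClosed K := by
        have : K = ⋂ j : Fin (f n), {w : Fin M → ℝ | ∑ a, (w (e.symm (j, a))) ^ 2 ≤ 1} := by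
          ext w; simp [K]
        rw [this]
        exact isClosed_iInter fun j => isClosed_le (by fun_prop) continuous_const
      have h2 : IsCompact (Set.pi Set.univ fun _ : Fin M => Set.Icc (-1 : ℝ) 1) :=
        isCompact_univ_pi fun _ => isCompact_Icc
      refine h2.of_isClosed_subset h1 fun w hw q _ => ?_
      have h3 := hw (e q).1
      have h4 : (w q) ^ 2 ≤ 1 := by
        refine le_trans ?_ h3
        have h5 := Finset.single_le_sum (f := fun a => (w (e.symm ((e q).1, a))) ^ 2)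
          (fun a _ => sq_nonneg _) (Finset.mem_univ (e q).2)
        simp only [Prod.mk.eta, Equiv.symm_apply_apply] at h5
        exact h5
      exact abs_le.mp (by nlinarith [sq_abs (w q), abs_nonneg (w q)])
    let g : (Fin M → ℝ) → X n t := fun w j =>
      if h : ∑ a, (w (e.symm (j, a))) ^ 2 ≤ 1 then cpt _ (fun a => w (e.symm (j, a))) h else z0 t
    have hgd : ∀ x ∈ K, ∀ y ∈ K, dist (g x) (g y) ≤ 2 * ‖x - y‖ := by
      intro x hx y hy
      rw [dist_pi_le_iff (by positivity)]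
      intro j
      have h1 : g x j = cpt _ (fun a => x (e.symm (j, a))) (hx j) := dif_pos (hx j)
      have h2 : g y j = cpt _ (fun a => y (e.symm (j, a))) (hy j) := dif_pos (hy j)
      rw [h1, h2]
      refine cpt_dist _ _ _ _ _ ‖x - y‖ (norm_nonneg _) fun i => ?_
      exact norm_le_pi_norm (x - y) (e.symm (j, i))
    choose Cl hCl using fun p : Fin κ × Fin κ => hlip p.1 p.2
    let L0 : ℝ := ∑ p, |Cl p|
    refine core g2 t κ θ c hθ hpos hbd r M hr K hKc g (L0 * 2) ?_ ?_ htr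
    · intro x hx y hy a b
      have h1 := hCl (a.1, b.1) t (g x) (g y) a.2 b.2
      have h2 : Cl (a.1, b.1) ≤ L0 := (le_abs_self _).trans
        (Finset.single_le_sum (f := fun p => |Cl p|) (fun p _ => abs_nonneg _) (Finset.mem_univ _))
      have hL0 : 0 ≤ L0 := Finset.sum_nonneg fun p _ => abs_nonneg _
      calc ‖big t (g x) c a b - big t (g y) c a b‖ ≤ Cl (a.1, b.1) * dist (g x) (g y) := h1
        _ ≤ L0 * (2 * ‖x - y‖) := mul_le_mul h2 (hgd x hx y hy) dist_nonneg hL0
        _ = L0 * 2 * ‖x - y‖ := by ring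
    · intro y
      choose ζ hζ using fun j => (y j).2
      refine ⟨fun q => ζ (e q).1 (e q).2, ?_, ?_⟩
      · intro j
        simpa using (hζ j).1
      · have : g (fun q => ζ (e q).1 (e q).2) = y := by
          funext j
          have h1 : ∑ a, ((fun q => ζ (e q).1 (e q).2) (e.symm (j, a))) ^ 2 ≤ 1 := by
            simpa using (hζ j).1
          have h2 : g (fun q => ζ (e q).1 (e q).2) j = cpt _ _ h1 := dif_pos h1
          rw [h2]
          refine Subtype.ext ?_
          funext i i'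
          show ζ (e (e.symm (j, i))).1 (e (e.symm (j, i))).2 *
            ζ (e (e.symm (j, i'))).1 (e (e.symm (j, i'))).2 = _
          rw [Equiv.apply_symm_apply, Equiv.apply_symm_apply, (hζ j).2]
        rw [this]

end Run7.h212.AH

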